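import Pool.Agent.TH970.MDS.Facts
import Pool.Agent.TH970.MDS.Final
import Pool.Agent.TH902.J3755
import Pool.Agent.TH962.MDS.A2
import Pool.Agent.TH91.MDS.S
import Pool.Agent.TH367.MDS_Asm
import Pool.Agent.TH286.MDS.G

/-! The multiplicative Dirichlet spectrum contains the interval `[0, (3 - √5)/2]`. -/

set_option autoImplicit false

namespace Pool.Agent.Results.MP_85fa44_nt.GoldenInterval

/-- The distance from `x` to the nearest integer. -/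
noncomputable def distInt (x : ℝ) : ℝ := |x - round x|

/-- `m_Q(ξ,ζ)`: the minimum of `‖qξ‖ ‖qζ‖` over the integers `q` with `1 ≤ q ≤ Q`. -/
noncomputable def mQ (ξ ζ Q : ℝ) : ℝ :=
  sInf {x : ℝ | ∃ q : ℤ, 1 ≤ q ∧ (q : ℝ) ≤ Q ∧ x = distInt (q * ξ) * distInt (q * ζ)}

/-- `L(ξ,ζ)`: the limsup of `Q m_Q(ξ,ζ)` as the real number `Q` tends to infinity. -/
noncomputable def L (ξ ζ : ℝ) : ℝ := Filter.limsup (fun Q : ℝ => Q * mQ ξ ζ Q) Filter.atTop

/-- The multiplicative Dirichlet spectrum. -/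
def spectrum : Set ℝ := {t | ∃ ξ ζ : ℝ, L ξ ζ = t}

open Pool.Agent.TH970.MDS in
/-- The multiplicative Dirichlet spectrum contains the interval `[0, (3 - √5)/2]`. -/
theorem result : Set.Icc (0 : ℝ) ((3 - √5) / 2) ⊆ spectrum := by
  rintro t ⟨h0, h1⟩
  rcases h0.eq_or_lt with rfl | h0
  · exact ⟨0, 0, H372R3.MD.LL_zero⟩
  · obtain ⟨ξ, ζ, h⟩ := final (Pool.Agent.TH902.J3755.t_A1 t_Th t_Ch t_Per)
      (Pool.Agent.TH962.MDS.t_A2 t_Th t_Ch t_Per
        (Pool.Agent.TH91.MDS.t_S t_Th t_Ch (Pool.Agent.TH286.MDS.t_G t_Th t_Ch)))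
      Pool.Agent.TH367.MDSAsm.t_Open Pool.Agent.TH367.MDSAsm.t_Asm t h0 h1
    exact ⟨ξ, ζ, h⟩

end Pool.Agent.Results.MP_85fa44_nt.GoldenInterval
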