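import Pool.Agent.TH970.MDS.UpReal
import Pool.Agent.TH443.J4037

/-! The multiplicative Dirichlet spectrum is contained in `[0, 5/13]`. -/

set_option autoImplicit false

namespace Pool.Agent.Results.MP_85fa44_nt.UpperFiveThirteenths

/-- The distance from `x` to the nearest integer. -/
noncomputable def distInt (x : ℝ) : ℝ := |x - round x|

/-- `m_Q(ξ,ζ)`: the minimum of `‖qξ‖ ‖qζ‖` over the integers `q` with `1 ≤ q ≤ Q`. -/
noncomputable def mQ (ξ ζ Q : ℝ) : ℝ :=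
  sInf {x : ℝ | ∃ q : ℤ, 1 ≤ q ∧ (q : ℝ) ≤ Q ∧ x = distInt (q * ξ) * distInt (q * ζ)}

/-- `L(ξ,ζ)`: the limsup of `Q m_Q(ξ,ζ)` as the real number `Q` tends to infinity. -/
noncomputable def L (ξ ζ : ℝ) : ℝ := Filter.limsup (fun Q : ℝ => Q * mQ ξ ζ Q) Filter.atTop

/-- The multiplicative Dirichlet spectrum. -/
def spectrum : Set ℝ := {t | ∃ ξ ζ : ℝ, L ξ ζ = t}

/-- The multiplicative Dirichlet spectrum is contained in `[0, 5/13]`. -/
theorem result : spectrum ⊆ Set.Icc (0 : ℝ) (5 / 13) := by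
  rintro t ⟨ξ, ζ, rfl⟩
  exact ⟨H372R3.MD.LL_nonneg ξ ζ, Pool.Agent.TH970.MDS.Up.upper_of (5 / 13) 10 (by norm_num)
    (by norm_num) Pool.Agent.TH443.J4037.t_Extract Pool.Agent.TH970.MDS.Up.no_bad ξ ζ⟩

end Pool.Agent.Results.MP_85fa44_nt.UpperFiveThirteenths
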